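import Mathlib

set_option autoImplicit false

open Matrix Finset
open scoped ComplexOrder

namespace Pool.Agent.K7.H91.MJ

/-- the eigenvalues of a Hermitian two by two matrix, the larger one first -/
noncomputable def eig {M : Matrix (Fin 2) (Fin 2) ℂ} (h : M.IsHermitian) : Fin 2 → ℝ :=
  fun j => h.eigenvalues₀ (Fin.cast (Fintype.card_fin 2).symm j)

theorem eig_le {M : Matrix (Fin 2) (Fin 2) ℂ} (h : M.IsHermitian) : eig h 1 ≤ eig h 0 := by
  apply h.eigenvalues₀_antitone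
  show (0 : ℕ) ≤ 1
  omega

theorem eig_comm {β : Type} [CommMonoid β] {M : Matrix (Fin 2) (Fin 2) ℂ} (h : M.IsHermitian) (f : ℝ → β) :
    ∏ i, f (h.eigenvalues i) = f (eig h 0) * f (eig h 1) := by
  have h1 : ∏ i, f (h.eigenvalues i) = ∏ j, f (h.eigenvalues₀ j) :=
    Equiv.prod_comp (Fintype.equivOfCardEq (Fintype.card_fin _)).symm (fun j => f (h.eigenvalues₀ j))
  have h2 : ∏ j, f (h.eigenvalues₀ j) = ∏ j : Fin 2, f (eig h j) :=
    (Equiv.prod_comp (finCongr (Fintype.card_fin 2).symm) (fun j => f (h.eigenvalues₀ j))).symm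
  rw [h1, h2, Fin.prod_univ_two]

theorem eig_comm_add {β : Type} [AddCommMonoid β] {M : Matrix (Fin 2) (Fin 2) ℂ} (h : M.IsHermitian) (f : ℝ → β) :
    ∑ i, f (h.eigenvalues i) = f (eig h 0) + f (eig h 1) := by
  have h1 : ∑ i, f (h.eigenvalues i) = ∑ j, f (h.eigenvalues₀ j) :=
    Equiv.sum_comp (Fintype.equivOfCardEq (Fintype.card_fin _)).symm (fun j => f (h.eigenvalues₀ j))
  have h2 : ∑ j, f (h.eigenvalues₀ j) = ∑ j : Fin 2, f (eig h j) :=
    (Equiv.sum_comp (finCongr (Fintype.card_fin 2).symm) (fun j => f (h.eigenvalues₀ j))).symm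
  rw [h1, h2, Fin.sum_univ_two]

theorem eig_sum {M : Matrix (Fin 2) (Fin 2) ℂ} (h : M.IsHermitian) :
    ((eig h 0 + eig h 1 : ℝ) : ℂ) = M.trace := by
  have h1 := eig_comm_add h (RCLike.ofReal : ℝ → ℂ)
  rw [h.trace_eq_sum_eigenvalues]
  refine Eq.trans ?_ h1.symm
  rw [Complex.ofReal_add]
  rfl

theorem eig_mul {M : Matrix (Fin 2) (Fin 2) ℂ} (h : M.IsHermitian) :
    ((eig h 0 * eig h 1 : ℝ) : ℂ) = M.det := by
  have h1 := eig_comm h (RCLike.ofReal : ℝ → ℂ)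
  rw [h.det_eq_prod_eigenvalues]
  refine Eq.trans ?_ h1.symm
  rw [Complex.ofReal_mul]
  rfl

theorem eig_nonneg {M : Matrix (Fin 2) (Fin 2) ℂ} (h : M.IsHermitian) (hp : M.PosSemidef) (j : Fin 2) :
    0 ≤ eig h j := by
  have h1 := hp.eigenvalues_nonneg
  obtain ⟨i, hi⟩ := (Fintype.equivOfCardEq (Fintype.card_fin (Fintype.card (Fin 2)))).symm.surjective
    (Fin.cast (Fintype.card_fin 2).symm j)
  have := h1 i
  unfold eig
  rw [← hi]
  exact this

end Pool.Agent.K7.H91.MJ
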