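import Mathlib

set_option autoImplicit false

open Matrix Finset

namespace Pool.Agent.K7.H91.MJ

/-- traceless Hermitian matrices -/
noncomputable def S (x y z : ℝ) : Matrix (Fin 2) (Fin 2) ℂ :=
  !![(z : ℂ), (x : ℂ) - y * Complex.I; (x : ℂ) + y * Complex.I, -(z : ℂ)]

theorem herm_eq {A : Matrix (Fin 2) (Fin 2) ℂ} (hA : A.IsHermitian) :
    ∃ a x y z : ℝ, A = (a : ℂ) • (1 : Matrix (Fin 2) (Fin 2) ℂ) + S x y z := by
  refine ⟨((A 0 0).re + (A 1 1).re) / 2, (A 1 0).re, (A 1 0).im, ((A 0 0).re - (A 1 1).re) / 2, ?_⟩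
  have h00 := hA.apply 0 0
  have h11 := hA.apply 1 1
  have h01 := hA.apply 0 1
  have i00 : (A 0 0).im = 0 := by
    have := congrArg Complex.im h00
    simp at this
    linarith
  have i11 : (A 1 1).im = 0 := by
    have := congrArg Complex.im h11
    simp at this
    linarith
  ext i j
  fin_cases i <;> fin_cases j
  · apply Complex.ext
    · simp [S]; ring
    · simp [S, i00]
  · apply Complex.ext
    · have := congrArg Complex.re h01
      simp at this
      simp [S]; linarith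
    · have := congrArg Complex.im h01
      simp at this
      simp [S]; linarith
  · apply Complex.ext
    · simp [S]
    · simp [S]
  · apply Complex.ext
    · simp [S]; ring
    · simp [S, i11]

theorem S_sq (x y z : ℝ) : S x y z * S x y z = ((x ^ 2 + y ^ 2 + z ^ 2 : ℝ) : ℂ) • (1 : Matrix (Fin 2) (Fin 2) ℂ) := by
  ext i j
  fin_cases i <;> fin_cases j <;> apply Complex.ext <;>
    simp [S, Matrix.mul_apply, Fin.sum_univ_two, pow_two] <;> ring

/-- the coefficients of the powers -/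
def uv (a m : ℝ) : ℕ → ℝ × ℝ
  | 0 => (1, 0)
  | i + 1 => (a * (uv a m i).1 + m * (uv a m i).2, (uv a m i).1 + a * (uv a m i).2)

theorem uv_eq (a t : ℝ) (i : ℕ) : (uv a (t ^ 2) i).1 = ((a + t) ^ i + (a - t) ^ i) / 2 ∧
    t * (uv a (t ^ 2) i).2 = ((a + t) ^ i - (a - t) ^ i) / 2 := by
  induction i with
  | zero => simp [uv]
  | succ i ih =>
    obtain ⟨h1, h2⟩ := ih
    refine ⟨?_, ?_⟩
    · show a * (uv a (t ^ 2) i).1 + t ^ 2 * (uv a (t ^ 2) i).2 = _
      rw [show t ^ 2 * (uv a (t ^ 2) i).2 = t * (t * (uv a (t ^ 2) i).2) by ring, h1, h2]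
      ring
    · show t * ((uv a (t ^ 2) i).1 + a * (uv a (t ^ 2) i).2) = _
      rw [show t * ((uv a (t ^ 2) i).1 + a * (uv a (t ^ 2) i).2) =
        t * (uv a (t ^ 2) i).1 + a * (t * (uv a (t ^ 2) i).2) by ring, h1, h2]
      ring

theorem pow_eq (a m : ℝ) (X : Matrix (Fin 2) (Fin 2) ℂ)
    (hX : X * X = (m : ℂ) • (1 : Matrix (Fin 2) (Fin 2) ℂ)) (i : ℕ) :
    ((a : ℂ) • (1 : Matrix (Fin 2) (Fin 2) ℂ) + X) ^ i =
      ((uv a m i).1 : ℂ) • (1 : Matrix (Fin 2) (Fin 2) ℂ) + ((uv a m i).2 : ℂ) • X := by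
  induction i with
  | zero => simp [uv]
  | succ i ih =>
    rw [pow_succ, ih]
    have e1 : (uv a m (i + 1)).1 = a * (uv a m i).1 + m * (uv a m i).2 := rfl
    have e2 : (uv a m (i + 1)).2 = (uv a m i).1 + a * (uv a m i).2 := rfl
    rw [e1, e2]
    simp only [add_mul, mul_add, smul_mul_assoc, mul_smul_comm, one_mul, mul_one, hX, smul_smul]
    push_cast
    module

/-- the four sums -/
noncomputable def X (a m b m' : ℝ) (k : ℕ) (p q : ℝ × ℝ → ℝ) : ℝ :=
  ∑ i ∈ range (k + 1), (k.choose i : ℝ) * (p (uv a m i) * q (uv b m' (k - i)))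

theorem Q_eq (a m b m' : ℝ) (A B : Matrix (Fin 2) (Fin 2) ℂ)
    (hA : A * A = (m : ℂ) • (1 : Matrix (Fin 2) (Fin 2) ℂ))
    (hB : B * B = (m' : ℂ) • (1 : Matrix (Fin 2) (Fin 2) ℂ)) (k : ℕ) :
    ∑ i ∈ range (k + 1), (k.choose i : ℂ) • (((a : ℂ) • (1 : Matrix (Fin 2) (Fin 2) ℂ) + A) ^ i *
      ((b : ℂ) • (1 : Matrix (Fin 2) (Fin 2) ℂ) + B) ^ (k - i)) =
    (X a m b m' k Prod.fst Prod.fst : ℂ) • (1 : Matrix (Fin 2) (Fin 2) ℂ) +
      (X a m b m' k Prod.snd Prod.fst : ℂ) • A + (X a m b m' k Prod.fst Prod.snd : ℂ) • B +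
      (X a m b m' k Prod.snd Prod.snd : ℂ) • (A * B) := by
  unfold X
  push_cast
  simp only [Finset.sum_smul]
  rw [← Finset.sum_add_distrib, ← Finset.sum_add_distrib, ← Finset.sum_add_distrib]
  refine Finset.sum_congr rfl fun i _ => ?_
  rw [pow_eq a m A hA, pow_eq b m' B hB]
  simp only [add_mul, mul_add, smul_mul_assoc, mul_smul_comm, one_mul, mul_one, smul_smul, smul_add]
  module

theorem X_sum (a t b t' : ℝ) (k : ℕ) :
    (4 * X a (t ^ 2) b (t' ^ 2) k Prod.fst Prod.fst =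
      (a + b + (t + t')) ^ k + (a + b - (t + t')) ^ k + (a + b + (t - t')) ^ k + (a + b - (t - t')) ^ k) ∧
    (4 * (t * X a (t ^ 2) b (t' ^ 2) k Prod.snd Prod.fst) =
      (a + b + (t + t')) ^ k - (a + b - (t + t')) ^ k + (a + b + (t - t')) ^ k - (a + b - (t - t')) ^ k) ∧
    (4 * (t' * X a (t ^ 2) b (t' ^ 2) k Prod.fst Prod.snd) =
      (a + b + (t + t')) ^ k - (a + b - (t + t')) ^ k - (a + b + (t - t')) ^ k + (a + b - (t - t')) ^ k) ∧
    (4 * (t * t' * X a (t ^ 2) b (t' ^ 2) k Prod.snd Prod.snd) =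
      (a + b + (t + t')) ^ k + (a + b - (t + t')) ^ k - (a + b + (t - t')) ^ k - (a + b - (t - t')) ^ k) := by
  have e1 : (a + b + (t + t')) ^ k = ∑ i ∈ range (k + 1), (a + t) ^ i * (b + t') ^ (k - i) * (k.choose i : ℝ) := by
    rw [← add_pow]; congr 1; ring
  have e2 : (a + b - (t + t')) ^ k = ∑ i ∈ range (k + 1), (a - t) ^ i * (b - t') ^ (k - i) * (k.choose i : ℝ) := by
    rw [← add_pow]; congr 1; ring
  have e3 : (a + b + (t - t')) ^ k = ∑ i ∈ range (k + 1), (a + t) ^ i * (b - t') ^ (k - i) * (k.choose i : ℝ) := by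
    rw [← add_pow]; congr 1; ring
  have e4 : (a + b - (t - t')) ^ k = ∑ i ∈ range (k + 1), (a - t) ^ i * (b + t') ^ (k - i) * (k.choose i : ℝ) := by
    rw [← add_pow]; congr 1; ring
  rw [e1, e2, e3, e4]
  unfold X
  refine ⟨?_, ?_, ?_, ?_⟩
  · rw [Finset.mul_sum, ← Finset.sum_add_distrib, ← Finset.sum_add_distrib, ← Finset.sum_add_distrib]
    refine Finset.sum_congr rfl fun i _ => ?_
    rw [(uv_eq a t i).1, (uv_eq b t' (k - i)).1]
    ring
  · rw [Finset.mul_sum, Finset.mul_sum, ← Finset.sum_sub_distrib, ← Finset.sum_add_distrib,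
      ← Finset.sum_sub_distrib]
    refine Finset.sum_congr rfl fun i _ => ?_
    rw [show 4 * (t * ((k.choose i : ℝ) * ((uv a (t ^ 2) i).2 * (uv b (t' ^ 2) (k - i)).1))) =
      4 * (k.choose i : ℝ) * (t * (uv a (t ^ 2) i).2) * (uv b (t' ^ 2) (k - i)).1 by ring,
      (uv_eq a t i).2, (uv_eq b t' (k - i)).1]
    ring
  · rw [Finset.mul_sum, Finset.mul_sum, ← Finset.sum_sub_distrib, ← Finset.sum_sub_distrib,
      ← Finset.sum_add_distrib]
    refine Finset.sum_congr rfl fun i _ => ?_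
    rw [show 4 * (t' * ((k.choose i : ℝ) * ((uv a (t ^ 2) i).1 * (uv b (t' ^ 2) (k - i)).2))) =
      4 * (k.choose i : ℝ) * (uv a (t ^ 2) i).1 * (t' * (uv b (t' ^ 2) (k - i)).2) by ring,
      (uv_eq a t i).1, (uv_eq b t' (k - i)).2]
    ring
  · rw [Finset.mul_sum, Finset.mul_sum, ← Finset.sum_add_distrib, ← Finset.sum_sub_distrib,
      ← Finset.sum_sub_distrib]
    refine Finset.sum_congr rfl fun i _ => ?_
    rw [show 4 * (t * t' * ((k.choose i : ℝ) * ((uv a (t ^ 2) i).2 * (uv b (t' ^ 2) (k - i)).2))) =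
      4 * (k.choose i : ℝ) * (t * (uv a (t ^ 2) i).2) * (t' * (uv b (t' ^ 2) (k - i)).2) by ring,
      (uv_eq a t i).2, (uv_eq b t' (k - i)).2]
    ring

/-- trace and determinant -/
theorem tr_det (x y z x' y' z' p q r s : ℝ) :
    let Q := (p : ℂ) • (1 : Matrix (Fin 2) (Fin 2) ℂ) + (q : ℂ) • S x y z + (r : ℂ) • S x' y' z' +
      (s : ℂ) • (S x y z * S x' y' z')
    let m := x ^ 2 + y ^ 2 + z ^ 2
    let m' := x' ^ 2 + y' ^ 2 + z' ^ 2
    let g := x * x' + y * y' + z * z'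
    let T := p + s * g
    let N := q ^ 2 * m + r ^ 2 * m' + 2 * q * r * g
    let κ := s ^ 2 * (m * m' - g ^ 2)
    (Qᴴ * Q).trace = ((2 * (T ^ 2 + N + κ) : ℝ) : ℂ) ∧ Q.det = ((T ^ 2 - N + κ : ℝ) : ℂ) := by
  intro Q m m' g T N κ
  have e00 : Q 0 0 = (p + q * z + r * z' + s * g : ℝ) + ((s * (x * y' - y * x') : ℝ) : ℂ) * Complex.I := by
    apply Complex.ext <;> simp [Q, S, Matrix.mul_apply, Fin.sum_univ_two, g] <;> ring_nf <;> simp
  have e11 : Q 1 1 = (p - q * z - r * z' + s * g : ℝ) - ((s * (x * y' - y * x') : ℝ) : ℂ) * Complex.I := by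
    apply Complex.ext <;> simp [Q, S, Matrix.mul_apply, Fin.sum_univ_two, g] <;> ring_nf <;> simp
  have e01 : Q 0 1 = (q * x + r * x' + s * (z * x' - x * z') : ℝ) +
      ((-(q * y) - r * y' + s * (y * z' - z * y') : ℝ) : ℂ) * Complex.I := by
    apply Complex.ext <;> simp [Q, S, Matrix.mul_apply, Fin.sum_univ_two] <;> ring_nf <;> simp
  have e10 : Q 1 0 = (q * x + r * x' - s * (z * x' - x * z') : ℝ) +
      ((q * y + r * y' + s * (y * z' - z * y') : ℝ) : ℂ) * Complex.I := by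
    apply Complex.ext <;> simp [Q, S, Matrix.mul_apply, Fin.sum_univ_two] <;> ring_nf <;> simp
  constructor
  · rw [Matrix.trace_fin_two]
    simp only [Matrix.mul_apply, Fin.sum_univ_two, Matrix.conjTranspose_apply]
    rw [e00, e01, e10, e11]
    apply Complex.ext
    · simp [T, N, κ, m, m', g, pow_two]; ring
    · simp [T, N, κ, m, m', g, pow_two]; ring
  · rw [Matrix.det_fin_two, e00, e01, e10, e11]
    apply Complex.ext
    · simp [T, N, κ, m, m', g, pow_two]; ring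
    · simp [T, N, κ, m, m', g, pow_two]; ring

end Pool.Agent.K7.H91.MJ
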