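import Mathlib

set_option autoImplicit false

/-! Real inequalities for the two by two case of MP_08c3d6_an. -/

open Finset

namespace Pool.Agent.K7.H91.MJ

/-- even part of `(c + x) ^ k` -/
noncomputable def F (c : ℝ) (k : ℕ) (x : ℝ) : ℝ := ((c + x) ^ k + (c - x) ^ k) / 2

/-- odd part of `(c + x) ^ k` -/
noncomputable def G (c : ℝ) (k : ℕ) (x : ℝ) : ℝ := ((c + x) ^ k - (c - x) ^ k) / 2

/-- the parts as functions of `y = x ^ 2` -/
def fg (c : ℝ) : ℕ → (ℝ → ℝ) × (ℝ → ℝ)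
  | 0 => (fun _ => 1, fun _ => 0)
  | k + 1 => (fun y => c * (fg c k).1 y + y * (fg c k).2 y, fun y => c * (fg c k).2 y + (fg c k).1 y)

theorem FG_eq (c x : ℝ) (k : ℕ) : F c k x = (fg c k).1 (x ^ 2) ∧ G c k x = x * (fg c k).2 (x ^ 2) := by
  induction k with
  | zero => simp [F, G, fg]
  | succ k ih =>
    obtain ⟨h1, h2⟩ := ih
    have e1 : F c (k + 1) x = c * F c k x + x * G c k x := by unfold F G; ring
    have e2 : G c (k + 1) x = c * G c k x + x * F c k x := by unfold F G; ring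
    rw [e1, e2, h1, h2]
    refine ⟨?_, ?_⟩
    · show _ = c * (fg c k).1 (x ^ 2) + x ^ 2 * (fg c k).2 (x ^ 2)
      ring
    · show _ = x * (c * (fg c k).2 (x ^ 2) + (fg c k).1 (x ^ 2))
      ring

/-- convex, monotone and nonnegative on `[0, ∞)` -/
structure Nice (f : ℝ → ℝ) : Prop where
  conv : ConvexOn ℝ (Set.Ici 0) f
  mono : MonotoneOn f (Set.Ici 0)
  nonneg : ∀ x, 0 ≤ x → 0 ≤ f x

theorem Nice.add {f g : ℝ → ℝ} (hf : Nice f) (hg : Nice g) : Nice (fun x => f x + g x) :=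
  ⟨hf.conv.add hg.conv, hf.mono.add hg.mono, fun x hx => add_nonneg (hf.nonneg x hx) (hg.nonneg x hx)⟩

theorem Nice.mul {f g : ℝ → ℝ} (hf : Nice f) (hg : Nice g) : Nice (fun x => f x * g x) := by
  refine ⟨?_, ?_, fun x hx => mul_nonneg (hf.nonneg x hx) (hg.nonneg x hx)⟩
  · exact hf.conv.mul hg.conv (fun x hx => hf.nonneg x hx) (fun x hx => hg.nonneg x hx)
      (hf.mono.monovaryOn hg.mono)
  · intro x hx y hy hxy
    exact mul_le_mul (hf.mono hx hy hxy) (hg.mono hx hy hxy) (hg.nonneg x hx) (hf.nonneg y hy)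

theorem nice_const {c : ℝ} (hc : 0 ≤ c) : Nice (fun _ => c) :=
  ⟨convexOn_const c (convex_Ici 0), monotoneOn_const, fun _ _ => hc⟩

theorem nice_id : Nice (fun x => x) :=
  ⟨convexOn_id (convex_Ici 0), monotoneOn_id, fun _ hx => hx⟩

theorem nice_fg {c : ℝ} (hc : 0 ≤ c) (k : ℕ) : Nice (fg c k).1 ∧ Nice (fg c k).2 := by
  induction k with
  | zero => exact ⟨nice_const zero_le_one, nice_const le_rfl⟩
  | succ k ih =>
    exact ⟨((nice_const hc).mul ih.1).add (nice_id.mul ih.2), ((nice_const hc).mul ih.2).add ih.1⟩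

theorem jensen {f : ℝ → ℝ} (hf : Nice f) {l s d : ℝ} (h0 : 0 ≤ l) (h1 : l ≤ 1) (hs : 0 ≤ s) (hd : 0 ≤ d) :
    f (l * s + (1 - l) * d) ≤ l * f s + (1 - l) * f d := by
  have := hf.conv.2 (x := s) (Set.mem_Ici.2 hs) (y := d) (Set.mem_Ici.2 hd) h0 (by linarith : 0 ≤ 1 - l) (by ring)
  simpa [smul_eq_mul] using this

/-- the inequality for `c ≥ 0` -/
theorem ineq {c h s d l : ℝ} {k : ℕ} (hc : 0 ≤ c) (hh : h ^ 2 = l * s ^ 2 + (1 - l) * d ^ 2)
    (h0 : 0 ≤ l) (h1 : l ≤ 1) :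
    F c k h ≤ l * F c k s + (1 - l) * F c k d ∧ 0 ≤ F c k h ∧
      G c k h ^ 2 ≤ l * G c k s ^ 2 + (1 - l) * G c k d ^ 2 := by
  obtain ⟨n1, n2⟩ := nice_fg hc k
  refine ⟨?_, ?_, ?_⟩
  · rw [(FG_eq c h k).1, (FG_eq c s k).1, (FG_eq c d k).1, hh]
    exact jensen n1 h0 h1 (sq_nonneg s) (sq_nonneg d)
  · rw [(FG_eq c h k).1]
    exact n1.nonneg _ (sq_nonneg h)
  · have n3 : Nice (fun y => y * ((fg c k).2 y * (fg c k).2 y)) := nice_id.mul (n2.mul n2)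
    have e : ∀ x, G c k x ^ 2 = (fun y => y * ((fg c k).2 y * (fg c k).2 y)) (x ^ 2) := by
      intro x
      rw [(FG_eq c x k).2]
      ring
    rw [e h, e s, e d, hh]
    exact jensen n3 h0 h1 (sq_nonneg s) (sq_nonneg d)

theorem F_abs (c : ℝ) (k : ℕ) (x : ℝ) : F |c| k x = F c k x ∨ F |c| k x = - F c k x := by
  rcases le_total 0 c with h | h
  · rw [abs_of_nonneg h]; exact Or.inl rfl
  · rw [abs_of_nonpos h]
    have e1 : -c + x = -(c - x) := by ring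
    have e2 : -c - x = -(c + x) := by ring
    rcases Nat.even_or_odd k with hk | hk
    · left; unfold F; rw [e1, e2, hk.neg_pow, hk.neg_pow]; ring
    · right; unfold F; rw [e1, e2, hk.neg_pow, hk.neg_pow]; ring

/-- sign of the reflection -/
theorem FG_abs (c : ℝ) (k : ℕ) : (∀ x, F |c| k x = F c k x ∧ G |c| k x = G c k x) ∨
    (c ≤ 0 ∧ ∀ x, F |c| k x = F c k x ∧ G |c| k x = - G c k x) ∨
    (c ≤ 0 ∧ ∀ x, F |c| k x = - F c k x ∧ G |c| k x = G c k x) := by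
  rcases le_total 0 c with h | h
  · rw [abs_of_nonneg h]; exact Or.inl fun x => ⟨rfl, rfl⟩
  · rw [abs_of_nonpos h]
    have e1 : ∀ x, -c + x = -(c - x) := fun x => by ring
    have e2 : ∀ x, -c - x = -(c + x) := fun x => by ring
    rcases Nat.even_or_odd k with hk | hk
    · right; left
      refine ⟨h, fun x => ?_⟩
      unfold F G; rw [e1, e2, hk.neg_pow, hk.neg_pow]
      constructor <;> ring
    · right; right
      refine ⟨h, fun x => ?_⟩
      unfold F G; rw [e1, e2, hk.neg_pow, hk.neg_pow]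
      constructor <;> ring

/-- the largest and the sum of the two singular values -/
theorem final {c h s d l κ s0 s1 e0 e1 T N : ℝ} {k : ℕ} (hh0 : 0 ≤ h)
    (hh : h ^ 2 = l * s ^ 2 + (1 - l) * d ^ 2) (h0 : 0 ≤ l) (h1 : l ≤ 1) (hκ : 0 ≤ κ)
    (hT : T = l * F c k s + (1 - l) * F c k d) (hN : N = l * G c k s ^ 2 + (1 - l) * G c k d ^ 2)
    (hs1 : 0 ≤ s1) (hs01 : s1 ≤ s0) (hsum : s0 ^ 2 + s1 ^ 2 = 2 * (T ^ 2 + N + κ))
    (hprod : (s0 * s1) ^ 2 = (T ^ 2 - N + κ) ^ 2)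
    (hes : e0 + e1 = (c + h) ^ k + (c - h) ^ k) (hep : e0 * e1 = (c + h) ^ k * (c - h) ^ k) :
    e0 ≤ s0 ∧ e0 + e1 ≤ s0 + s1 := by
  have hs0 : 0 ≤ s0 := hs1.trans hs01
  obtain ⟨i1, i2, i3⟩ := ineq (k := k) (abs_nonneg c) hh h0 h1
  -- `T ^ 2`, `N` for `|c|`
  have hT' : (l * F |c| k s + (1 - l) * F |c| k d) ^ 2 = T ^ 2 := by
    rw [hT]
    rcases FG_abs c k with h | ⟨-, h⟩ | ⟨-, h⟩
    · rw [(h s).1, (h d).1]
    · rw [(h s).1, (h d).1]
    · rw [(h s).1, (h d).1]; ring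
  have hN' : l * G |c| k s ^ 2 + (1 - l) * G |c| k d ^ 2 = N := by
    rw [hN]
    rcases FG_abs c k with h | ⟨-, h⟩ | ⟨-, h⟩
    · rw [(h s).2, (h d).2]
    · rw [(h s).2, (h d).2]; ring
    · rw [(h s).2, (h d).2]
  rw [hN'] at i3
  have hN0 : 0 ≤ N := le_trans (sq_nonneg _) i3
  have hE0 : 0 ≤ T ^ 2 + κ := by positivity
  set e := √(T ^ 2 + κ) with he
  set n := √N with hn
  have he2 : e ^ 2 = T ^ 2 + κ := Real.sq_sqrt hE0
  have hn2 : n ^ 2 = N := Real.sq_sqrt hN0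
  have he0 : 0 ≤ e := Real.sqrt_nonneg _
  have hn0 : 0 ≤ n := Real.sqrt_nonneg _
  have hTe : l * F |c| k s + (1 - l) * F |c| k d ≤ e := by
    apply Real.le_sqrt_of_sq_le
    rw [hT']
    linarith
  have hFe : F |c| k h ≤ e := i1.trans hTe
  have hGn : G |c| k h ≤ n := by
    apply Real.le_sqrt_of_sq_le
    exact i3
  have hprod' : s0 * s1 = |e ^ 2 - n ^ 2| := by
    have h2 : (s0 * s1) ^ 2 = (e ^ 2 - n ^ 2) ^ 2 := by rw [hprod, he2, hn2]; ring
    rw [← abs_of_nonneg (mul_nonneg hs0 hs1)]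
    exact (sq_eq_sq_iff_abs_eq_abs _ _).1 h2
  have hsum' : s0 ^ 2 + s1 ^ 2 = 2 * (e ^ 2 + n ^ 2) := by rw [hsum, he2, hn2]; ring
  -- `s0 ≥ e + n`
  have k1 : e + n ≤ s0 := by
    apply le_of_sq_le_sq _ hs0
    have h3 : (s0 ^ 2 - (e + n) ^ 2) * (s0 ^ 2 - (e - n) ^ 2) = 0 := by
      have h4 : (s0 * s1) ^ 2 = (e ^ 2 - n ^ 2) ^ 2 := by rw [hprod', sq_abs]
      have h5 : s1 ^ 2 = 2 * (e ^ 2 + n ^ 2) - s0 ^ 2 := by linarith
      have h6 : (s0 * s1) ^ 2 = s0 ^ 2 * (2 * (e ^ 2 + n ^ 2) - s0 ^ 2) := by rw [← h5]; ring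
      rw [h4] at h6
      linear_combination h6
    rcases mul_eq_zero.1 h3 with h4 | h4
    · linarith
    · have h5 : s1 ^ 2 ≤ s0 ^ 2 := pow_le_pow_left₀ hs1 hs01 2
      nlinarith
  have k2 : 2 * e ≤ s0 + s1 := by
    apply le_of_sq_le_sq _ (by linarith)
    have h3 := le_abs_self (e ^ 2 - n ^ 2)
    nlinarith
  -- the eigenvalues
  have hb : ∀ x : ℝ, |x| ≤ |c| + h → x ^ k ≤ (|c| + h) ^ k := by
    intro x hx
    calc x ^ k ≤ |x ^ k| := le_abs_self _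
      _ = |x| ^ k := abs_pow x k
      _ ≤ (|c| + h) ^ k := pow_le_pow_left₀ (abs_nonneg x) hx k
  have hp : (c + h) ^ k ≤ (|c| + h) ^ k := hb _ (by
    calc |c + h| ≤ |c| + |h| := abs_add_le c h
      _ = |c| + h := by rw [abs_of_nonneg hh0])
  have hq : (c - h) ^ k ≤ (|c| + h) ^ k := hb _ (by
    calc |c - h| ≤ |c| + |h| := abs_sub c h
      _ = |c| + h := by rw [abs_of_nonneg hh0])
  have hFG : (|c| + h) ^ k = F |c| k h + G |c| k h := by unfold F G; ring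
  refine ⟨?_, ?_⟩
  · have h3 : (e0 - (c + h) ^ k) * (e0 - (c - h) ^ k) = 0 := by
      have h5 : e1 = (c + h) ^ k + (c - h) ^ k - e0 := by linarith
      rw [h5] at hep
      linear_combination (-1 : ℝ) * hep
    have h4 : e0 ≤ (|c| + h) ^ k := by
      rcases mul_eq_zero.1 h3 with h4 | h4 <;> linarith
    linarith
  · have h3 : (c + h) ^ k + (c - h) ^ k = 2 * F c k h := by unfold F; ring
    rw [hes, h3]
    have h4 : F c k h ≤ F |c| k h := by
      rcases F_abs c k h with h5 | h5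
      · linarith
      · linarith
    linarith

end Pool.Agent.K7.H91.MJ
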